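import Mathlib
import Pool.Agent.Run7.h255.NH.Example
import Pool.Agent.Run7.h255.NH.Sum2

/-!
# The number of lines missing a set of `q + 1` points: the second largest value

`K` is a finite field of odd order `q ≥ 5`; the points and the lines of `PG(2, q)` are the elements of
`ℙ K (Fin 3 → K)`, a point lies on a line if they are orthogonal. `missing S` is the number of the lines
without a point of `S`. `U(q)`, the largest value of `missing S` below `q (q - 1) / 2` for sets `S` of
`q + 1` points, satisfies `(q - 1)² / 2 + 1 ≤ U(q) ≤ q (q - 1) / 2 - (q - 3) / 3`.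

Upper bound. Call a point of `S` good if it is on no line with three points of `S`. Segre's lemma of
tangents holds for any three good points (whatever `S` looks like elsewhere): so the good points are
on a conic, and the unique tangent of `S` at a good point is the tangent of the conic
(`Run7.h255.NH.exists_bilin`, if there are three good points). If `S` is not an arc, some point `w` of
`S` is off this conic; the reflection in `w` maps the good points to points of the conic outside of
`S`, and so there are at most `(q + 1) / 2` good points (`Run7.h255.NH.nuclei_le`; this is a theorem of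
Wettl, 1987, on internal nuclei). If a point `k` of `S` is on exactly two tangents `t₁`, `t₂` (so on one
line with three points `k`, `k₁`, `k₂` of `S` and on no line with more), Segre's argument at `k` and two
good points shows that `β(P, k) D(k, k₂, P) = c t₁(P) t₂(P)` at all good points `P`; with the equation of
the conic this leaves at most four good points (`Run7.h255.NH.good_le_four`). So either at least `q - 3`
points of `S` are on a line with at least three points, or each of the at least `(q + 1) / 2` points which
are not good is on two such lines, or on a line with at least four points. And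
`∑ (i - 1) (i - 2) = q (q - 1)`, the sum over all lines, `i` the number of the points on the line.

Lower bound. The parabola without its point at infinity, and the point `(0, -1)`.
-/

set_option autoImplicit false

open scoped LinearAlgebra.Projectivization

namespace Pool.Agent.Results.MP_8b6d0b_co.SecondLargest

/-- The number of the lines `l` of the projective plane over `K` which contain no point of `S`; the
lines are given by their coordinates, and a point is on a line if the two are orthogonal. -/
noncomputable def missing {K : Type} [Field K] (S : Finset (ℙ K (Fin 3 → K))) : ℕ :=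
  {l : ℙ K (Fin 3 → K) | ∀ P ∈ S, ¬ P.orthogonal l}.ncard

/-- **Bounds for the second largest value.** `U` is the largest value below `q (q - 1) / 2` of the
number of the lines missing a set of `q + 1` points; then `(q - 1)² / 2 + 1 ≤ U` and
`U ≤ q (q - 1) / 2 - (q - 3) / 3`. -/
theorem result (K : Type) [Field K] [Fintype K] (hodd : Odd (Fintype.card K))
    (hq : 5 ≤ Fintype.card K) :
    ∃ U : ℕ, IsGreatest {n : ℕ | n < Fintype.card K * (Fintype.card K - 1) / 2 ∧
        ∃ S : Finset (ℙ K (Fin 3 → K)), S.card = Fintype.card K + 1 ∧ missing S = n} U ∧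
      ((Fintype.card K : ℝ) - 1) ^ 2 / 2 + 1 ≤ U ∧
      (U : ℝ) ≤ (Fintype.card K : ℝ) * ((Fintype.card K : ℝ) - 1) / 2 -
        ((Fintype.card K : ℝ) - 3) / 3 := by
  classical
  have h2 : (2 : K) ≠ 0 := by
    apply Ring.two_ne_zero
    intro h
    have h1 := (FiniteField.even_card_iff_char_two (F := K)).1 h
    rcases hodd with ⟨m, hm⟩
    omega
  have hm : ∀ S : Finset (ℙ K (Fin 3 → K)), missing S = Run7.h255.NH.missing S := fun _ => rfl
  obtain ⟨k, hk⟩ : ∃ k, Fintype.card K * (Fintype.card K - 1) = 2 * k := by
    have := Nat.even_mul_pred_self (Fintype.card K)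
    obtain ⟨k, hk⟩ := this
    exact ⟨k, by omega⟩
  obtain ⟨e1, e2⟩ := Run7.h255.NH.example_bound h2 (by omega : 4 ≤ Fintype.card K)
  set T : Set ℕ := {n : ℕ | n < Fintype.card K * (Fintype.card K - 1) / 2 ∧
        ∃ S : Finset (ℙ K (Fin 3 → K)), S.card = Fintype.card K + 1 ∧ missing S = n} with hT
  have hmem : Run7.h255.NH.missing (Run7.h255.NH.ex (K := K)) ∈ T :=
    ⟨by omega, Run7.h255.NH.ex, Run7.h255.NH.ex_card, rfl⟩
  have hbdd : BddAbove T := ⟨Fintype.card K * (Fintype.card K - 1) / 2, fun n hn => hn.1.le⟩
  have hU := Nat.sSup_mem ⟨_, hmem⟩ hbdd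
  refine ⟨sSup T, ⟨hU, fun n hn => le_csSup hbdd hn⟩, ?_, ?_⟩
  · have h3 := le_csSup hbdd hmem
    have h4 : (Fintype.card K - 1) ^ 2 + 2 ≤ 2 * sSup T := by omega
    have h5 : (((Fintype.card K - 1) ^ 2 + 2 : ℕ) : ℝ) ≤ ((2 * sSup T : ℕ) : ℝ) := by
      exact_mod_cast h4
    push_cast [Nat.cast_sub (show 1 ≤ Fintype.card K by omega)] at h5
    linarith
  · obtain ⟨h3, S, hS, h4⟩ := hU
    have h5 := Run7.h255.NH.upper2 hS hodd h2 (by omega) (by rw [← hm, h4]; omega)
    rw [← hm, h4] at h5
    have h6 : ((6 * sSup T + 2 * Fintype.card K : ℕ) : ℝ) ≤
        ((3 * (Fintype.card K * (Fintype.card K - 1)) + 6 : ℕ) : ℝ) := by exact_mod_cast h5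
    push_cast [Nat.cast_sub (show 1 ≤ Fintype.card K by omega)] at h6
    linarith

end Pool.Agent.Results.MP_8b6d0b_co.SecondLargest
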